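import Pool.Agent.H146Z.FuMain

set_option autoImplicit false

namespace Pool.Agent.Results.MP_fc6768_gt.MetricFactor

open Pool.Agent.H146Z.Fu Set
open scoped Cardinal

/-- For a regular `κ ≤ pr`, a `κ`-fin-unbounded set `X` and an infinite metric space `Y` with the
gamma-property, the product `(X ∪ Fin) × Y` satisfies `S₁(Γ, Ω)`. -/
theorem result (κ : Cardinal.{0}) (hκ : κ.IsRegular) (hpr : κ ≤ pr) (X : Set Cantor)
    (hX : FinUnbMin κ X) (Y : Type) [MetricSpace Y] [Infinite Y] (hY : S1OmegaGamma Y) :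
    S1GammaOmega (↥(X ∪ FinSets) × Y) := by
  have ho := omit_of_min hX
  have h0 := aleph0_lt hκ hX.1 hX.2.1 ho
  have hw := wg_of_gammaProp (gammaProp_of_s1 hY)
  rw [prod_iff]
  refine main hκ h0 hw ho fun S _ hS => ?_
  rw [← prod_iff]
  have hp : Productive ↥(S ∪ FinSets) := by
    by_contra hn
    exact notMem_of_lt_csInf' ((card_union_fin h0 hS).trans_le hpr)
      ⟨_, inferInstance, inferInstance, (finSets_infinite.mono subset_union_right).to_subtype,
        rfl, hn⟩
  exact hp Y (s1_of_on (on_of_wg hw))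

end Pool.Agent.Results.MP_fc6768_gt.MetricFactor
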